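import Pool.Agent.helper45.SGK.Spec

/-! Row sk:RDS (MP_069684_lc): the reduction from 3SAT. -/

set_option autoImplicit false

namespace Pool.Agent.SGK

open Finset Pool.Agent.helper38.Neg Pool.Agent.helper55.NT
open Pool.Agent.SGC (Sg SCirc Ext Mv hw RN Solv stA stB)

theorem RDS_em {t Z : ℕ} (c : Pool.Agent.SGC.Cl t) (l : Fin 3) :
    em (Z := Z) c (Sum.inl l.castSucc) = Sum.inl (c.1 l) ∧ sn (Z := Z) c (Sum.inl l.castSucc) = c.2 l := by
  have h : ((l.castSucc : Fin 4) : ℕ) < 3 := l.2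
  constructor
  · unfold em
    simp only [dif_pos h]
    rfl
  · unfold sn
    simp only [dif_pos h]
    rfl

theorem RDS_em3 {t Z : ℕ} (c : Pool.Agent.SGC.Cl t) :
    em (Z := Z) c (Sum.inl 3) = Sum.inr (Sum.inl ()) ∧ sn (Z := Z) c (Sum.inl 3) = 0 := by
  have h : ¬ (((3 : Fin 4)) : ℕ) < 3 := by decide
  constructor
  · unfold em
    simp only [dif_neg h]
  · unfold sn
    simp only [dif_neg h]

theorem RDS_el {k t Z : ℕ} (c : Pool.Agent.SGC.Cl t) (β : Vx t Z → ZMod 2) (ζ : Fin Z → ZMod 2)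
    (hζ : ∀ z, β (Sum.inr (Sum.inr (c, z))) = ζ z) (κ : (Fin k → Fin 4 ⊕ Fin Z) × Wd k) :
    (fun j => β (em c (κ.1 j)) + (sn (t := t) c (κ.1 j) + κ.2 j)) =
      fun j => Sum.elim (fun l => β (em c (Sum.inl l)) + sn (Z := Z) c (Sum.inl l)) ζ (κ.1 j) + κ.2 j := by
  funext j
  rcases κ.1 j with l | z
  · rw [Sum.elim_inl, add_assoc]
  · rw [Sum.elim_inr]
    have h1 : em c (Sum.inr z : Fin 4 ⊕ Fin Z) = Sum.inr (Sum.inr (c, z)) := rfl
    have h2 : sn c (Sum.inr z : Fin 4 ⊕ Fin Z) = 0 := rfl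
    rw [h1, h2, hζ, zero_add]

theorem RDS : RDS_stmt := by
  classical
  intro k Z P K hK t x
  constructor
  · rintro ⟨α, hα⟩
    have hζ : ∀ c : Pool.Agent.SGC.Cl t, ∃ ζ : Fin Z → ZMod 2, x c → ∀ κ ∈ K, (fun j => Sum.elim
        (fun l => (Sum.elim α (fun _ => 0) : Fin t ⊕ (Unit ⊕ (Pool.Agent.SGC.Cl t × Fin Z)) → ZMod 2) (em c (Sum.inl l)) +
          sn (Z := Z) c (Sum.inl l)) ζ (κ.1 j) + κ.2 j) ∈ P := by
      intro c
      by_cases hc : x c
      · obtain ⟨l, hl⟩ := hα c hc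
        obtain ⟨ζ, h⟩ := (hK (fun l => (Sum.elim α (fun _ => 0) : Fin t ⊕ (Unit ⊕ (Pool.Agent.SGC.Cl t × Fin Z)) → ZMod 2)
          (em c (Sum.inl l)) + sn (Z := Z) c (Sum.inl l))).2 ⟨l, by
            simp only [(RDS_em (Z := Z) c l).1, (RDS_em (Z := Z) c l).2, (RDS_em3 (Z := Z) c).1, (RDS_em3 (Z := Z) c).2]
            rw [Sum.elim_inl, Sum.elim_inr, hl, add_zero, add_zero]
            exact CharTwo.add_self_eq_zero _⟩
        exact ⟨ζ, fun _ => h⟩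
      · exact ⟨0, fun h => absurd h hc⟩
    choose ζ hζ using hζ
    refine ⟨Sum.elim α (Sum.elim (fun _ => 0) fun p => ζ p.1 p.2), fun c hc κ hκ => ?_⟩
    rw [RDS_el c _ (ζ c) (fun z => rfl) κ]
    have h1 := hζ c hc κ hκ
    have h2 : (fun l : Fin 4 => (Sum.elim α (Sum.elim (fun _ => 0) fun p => ζ p.1 p.2) : Vx t Z → ZMod 2) (em c (Sum.inl l)) +
        sn (Z := Z) c (Sum.inl l)) = fun l => (Sum.elim α (fun _ => 0) : Vx t Z → ZMod 2) (em c (Sum.inl l)) +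
        sn (Z := Z) c (Sum.inl l) := by
      funext l
      unfold em
      by_cases h : (l : ℕ) < 3
      · simp only [dif_pos h]
        rfl
      · simp only [dif_neg h]
        rfl
    rw [h2]
    exact h1
  · rintro ⟨β, hβ⟩
    refine ⟨fun q => β (Sum.inl q) + β (Sum.inr (Sum.inl ())), fun c hc => ?_⟩
    have h1 := (hK (fun l => β (em c (Sum.inl l)) + sn (Z := Z) c (Sum.inl l))).1
      ⟨fun z => β (Sum.inr (Sum.inr (c, z))), fun κ hκ => by
        have h2 := hβ c hc κ hκ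
        rw [RDS_el c β (fun z => β (Sum.inr (Sum.inr (c, z)))) (fun z => rfl) κ] at h2
        exact h2⟩
    obtain ⟨l, hl⟩ := h1
    simp only [(RDS_em (Z := Z) c l).1, (RDS_em (Z := Z) c l).2, (RDS_em3 (Z := Z) c).1, (RDS_em3 (Z := Z) c).2] at hl
    refine ⟨l, ?_⟩
    have h3 : ∀ a b u : ZMod 2, a + b + (u + 0) = 0 → a + u = b := by decide
    exact h3 _ _ _ hl

end Pool.Agent.SGK
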